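import Pool.Agent.H735A.VarLim2

/-! # The Gaussian law for the number of primes modulo which `D m²` is a primitive root

Let `D ≠ 1` be a squarefree integer, `D ≡ 1 mod 4`; the integers `n` with squarefree part `D` are the
`D m²`. For a prime `p` let `w D p = ν / p`, where `ν` is the number of the residues `m` modulo `p` for which
`D m²` is a primitive root modulo `p` (so `ν = (1 - (D / p)) φ(p - 1)` if `p` does not divide `2 D`), and
`G D p = (1 - (D / p)) φ(p - 1) / (p - 1)`. For a finite set `P` of primes let `cnt D P m` be the number of the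
`p ∈ P` modulo which `D m²` is a primitive root and `W D P = ∑_{p ∈ P} w D p (1 - w D p)`.

Let `y x` be integers with `log (y x) / log x → ∞` and let `m` be taken at random in `[1, y x]`.

* Let `P x 1, …, P x r` be disjoint sets of primes `≤ x` with `W D (P x i) / (log x)² → ∞`. Then the numbers
  `(cnt D (P x i) m - ∑_{p ∈ P x i} G D p) / √(W D (P x i))`, `i ≤ r`, converge jointly in distribution to `r`
  independent standard normal variables.
* For the set of all primes `p ≤ x` the mean value is `∑_{p ≤ x} G D p ∼ δ(D) π(x)`, where `δ(D)` is the density of the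
  problem with its correction factor, and the variance is `W D (primes ≤ x) ∼ v(D) π(x)`, where
  `v(D) = δ(D) - 2 ∑_{d, e, D ∤ [d, e]} μ(d) μ(e) / (d e φ([d, e])) > 0`, `[d, e]` being the least common multiple. So
  the number of the primes `p ≤ x` modulo which `D m²` is a primitive root has the mean value that the problem
  predicts, and `(cnt - ∑_{p ≤ x} G D p) / √(v(D) π(x))` converges in distribution to the standard normal law.

Proof: in the characteristic function the exponential is replaced by its Taylor polynomial of degree `2 k`; the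
mixed moments that occur are those over a complete period `∏ p` up to `x ^ (4 k) / y`, and over the complete
period the variables are independent by the Chinese remainder theorem. That `v(D) > 0` follows from a lower bound
for the variance by the primes `p ≡ 1 mod q` with `(D / p) = -1` for a fixed odd prime `q ∤ D`.
-/

set_option autoImplicit false

namespace Pool.Agent.Results.MP_991e92_nt.GaussianLaw

open Finset Filter Topology Pool.Agent.H735A
open Pool.Agent.H730R2.AA (dens)

open Classical in
theorem result (D : ℤ) (hD : Squarefree D) (hD1 : D % 4 = 1) (hD2 : D ≠ 1) (y : ℕ → ℕ)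
    (hy : Tendsto (fun x : ℕ => Real.log (y x) / Real.log x) atTop atTop) :
    (∀ (r : ℕ) (P : ℕ → Fin r → Finset ℕ), (∀ x i, ∀ p ∈ P x i, p.Prime ∧ p ≤ x) →
      (∀ x i j, i ≠ j → Disjoint (P x i) (P x j)) →
      (∀ i, Tendsto (fun x : ℕ => W D (P x i) / (Real.log x) ^ 2) atTop atTop) →
      ∀ t : Fin r → ℝ, Tendsto (fun x : ℕ => (#((Icc 1 (y x)).filter (fun m => ∀ i,
        cnt D (P x i) m ≤ ∑ p ∈ P x i, G D p + t i * √(W D (P x i)))) : ℝ) / y x) atTop
        (𝓝 (∏ i, (ProbabilityTheory.gaussianReal 0 1).real (Set.Iic (t i))))) ∧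
    0 < dens D - 2 * v2 D ∧
    Tendsto (fun x : ℕ => (∑ p ∈ PrU x, G D p) / (Nat.primeCounting x : ℝ)) atTop (𝓝 (dens D)) ∧
    Tendsto (fun x : ℕ => W D (PrU x) / (Nat.primeCounting x : ℝ)) atTop
      (𝓝 (dens D - 2 * v2 D)) ∧
    (∀ t : ℝ, Tendsto (fun x : ℕ => (#((Icc 1 (y x)).filter (fun m =>
        cnt D (PrU x) m ≤ ∑ p ∈ PrU x, G D p +
          t * √((dens D - 2 * v2 D) * Nat.primeCounting x))) : ℝ) / y x) atTop
        (𝓝 ((ProbabilityTheory.gaussianReal 0 1).real (Set.Iic t)))) := by
  have hD0 : D ≠ 0 := hD.ne_zero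
  have hy' : ∀ K : ℕ, ∀ᶠ x in atTop, x ^ K ≤ y x := by
    intro K
    filter_upwards [hy.eventually_ge_atTop ((K : ℝ) + 1), eventually_ge_atTop 2] with x h1 h2
    have hx : (1 : ℝ) < x := by exact_mod_cast (by omega : 1 < x)
    have hl : 0 < Real.log x := Real.log_pos hx
    rw [le_div_iff₀ hl] at h1
    have hyp : (0 : ℝ) < y x := by
      rcases Nat.eq_zero_or_pos (y x) with h | h
      · rw [h] at h1
        simp at h1
        nlinarith [Nat.cast_nonneg (α := ℝ) K]
      · exact_mod_cast h
    have h3 : (K : ℝ) * Real.log x ≤ Real.log (y x) := by nlinarith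
    rw [← Real.log_pow] at h3
    have h4 := (Real.log_le_log_iff (by positivity) hyp).1 h3
    exact_mod_cast h4
  exact ⟨fun r P hP hdis hW t => by convert clt D hD0 y hy' P hP hdis hW t,
    v_pos D hD hD1 hD2, G_mean D hD hD1 hD2, W_lim D hD hD1 hD2,
    fun t => clt_v D hD hD1 hD2 y hy' t⟩

end Pool.Agent.Results.MP_991e92_nt.GaussianLaw
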