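import Mathlib
import Pool.Agent.Helper644_LA.ClassLaw

set_option autoImplicit false

/-! # Q1 for a fixed integer `n` and one residue class for each of many prime moduli

Let `n` be as in Q1 and `A(n)` the density displayed there. Let `ℓ` be an odd prime not dividing `n'` and
`a` a residue class modulo `ℓ` other than `0` and `1`. The expected density of the primes `p ≡ a` modulo
`ℓ` modulo which `n` is a primitive root is `A(n) ℓ / (ℓ ^ 2 - ℓ - 1)`. Let `classDeficit` be `ℓ - 1` times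
the difference between this number and the proportion of these primes among the primes `≤ x`, and let
`deficit` be `A(n)` minus the proportion of the primes `≤ x` modulo which `n` is a primitive root.
Then for each finite set `S` of such `ℓ` and each choice of classes
`∑ (classDeficit - deficit) ^ 2 / (ℓ - 2) ≤ deficit (1 - deficit) + o(1)`.
If `T` is a set of such primes with `∑ 1 / ℓ = ∞` then Q1 holds for `n` if and only if for each `ℓ` in `T`
the expected formula holds in the one chosen class modulo `ℓ`. -/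

namespace Pool.Agent.Results.MP_991e92_nt.OneClassPerModulus

open Filter Topology

/-- `n` is a primitive root modulo the prime `p` -/
def PrimitiveRoot (n : ℤ) (p : ℕ) : Prop := orderOf (n : ZMod p) = p - 1

/-- the proportion of the primes `p ≤ x` with `B p` -/
noncomputable def proportion (B : ℕ → Prop) (x : ℕ) : ℝ :=
  (Nat.card {p : ℕ // p ≤ x ∧ p.Prime ∧ B p} : ℝ) / (Nat.primeCounting x : ℝ)

/-- the density displayed in Q1 -/
noncomputable def artin (n' : ℤ) : ℝ :=
  (1 - ((ArithmeticFunction.moebius n'.natAbs : ℤ) : ℝ) *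
    ∏ q ∈ n'.natAbs.primeFactors, (1 / ((q : ℝ) ^ 2 - (q : ℝ) - 1))) *
  ∏' p : Nat.Primes, (1 - 1 / (((p : ℕ) : ℝ) * (((p : ℕ) : ℝ) - 1)))

/-- the expected density in a residue class modulo `ℓ` -/
noncomputable def expected (n' : ℤ) (ℓ : ℕ) : ℝ :=
  artin n' * ((ℓ : ℝ) / ((ℓ : ℝ) ^ 2 - (ℓ : ℝ) - 1))

/-- the deficit at `x` -/
noncomputable def deficit (n n' : ℤ) (x : ℕ) : ℝ := artin n' - proportion (PrimitiveRoot n) x

/-- the deficit at `x` in the class of `a` modulo `ℓ`, relative to the primes in this class -/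
noncomputable def classDeficit (n n' : ℤ) (ℓ a x : ℕ) : ℝ :=
  ((ℓ : ℝ) - 1) *
    (expected n' ℓ - proportion (fun p => p ≡ a [MOD ℓ] ∧ PrimitiveRoot n p) x)

/-- `ℓ` is an odd prime not dividing `n'` and `a` is neither `0` nor `1` modulo `ℓ` -/
def Admissible (n' : ℤ) (ℓ a : ℕ) : Prop :=
  ℓ.Prime ∧ ℓ ≠ 2 ∧ ¬ (ℓ : ℤ) ∣ n' ∧ ¬ a ≡ 0 [MOD ℓ] ∧ ¬ a ≡ 1 [MOD ℓ]

open Pool.Agent.Helper644_LA in
theorem result (n : ℤ) (h0 : n ≠ 0) (hpow : ¬ ∃ m : ℤ, ∃ r : ℕ, 1 < r ∧ n = m ^ r)
    (n' : ℤ) (hsq : Squarefree n') (hm : ∃ m : ℤ, n = n' * m ^ 2) (h4 : n' % 4 = 1) :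
    (∀ (S : Finset ℕ) (a : ℕ → ℕ), (∀ ℓ ∈ S, Admissible n' ℓ (a ℓ)) → ∀ ε : ℝ, 0 < ε →
      ∀ᶠ x in atTop,
        ∑ ℓ ∈ S, (classDeficit n n' ℓ (a ℓ) x - deficit n n' x) ^ 2 / ((ℓ : ℝ) - 2) ≤
        deficit n n' x * (1 - deficit n n' x) + ε) ∧
    (∀ (T : Set ℕ) (a : ℕ → ℕ), (∀ ℓ ∈ T, Admissible n' ℓ (a ℓ)) →
      ¬ Summable (fun ℓ : T => 1 / ((ℓ : ℕ) : ℝ)) →
      (Tendsto (proportion (PrimitiveRoot n)) atTop (𝓝 (artin n')) ↔
        ∀ ℓ ∈ T, Tendsto (proportion fun p => p ≡ a ℓ [MOD ℓ] ∧ PrimitiveRoot n p) atTop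
          (𝓝 (expected n' ℓ)))) := by
  have hg : Good n n' := ⟨h0, hpow, hsq, hm, h4⟩
  have e0 : ∀ x : ℕ, deficit n n' x = d00 n n' x := by
    intro x
    unfold deficit d00
    rw [M_ind]
    rfl
  have e1 : ∀ ℓ a x : ℕ, proportion (fun p => p ≡ a [MOD ℓ] ∧ PrimitiveRoot n p) x =
      pcl n ℓ a x := by
    intro ℓ a x
    unfold pcl
    rw [M_ind]
    rfl
  have e2 : ∀ ℓ : ℕ, expected n' ℓ = ecl n' ℓ := fun ℓ => rfl
  have e3 : ∀ ℓ a x : ℕ, classDeficit n n' ℓ a x = ((ℓ : ℝ) - 1) * dcl n n' ℓ a x := by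
    intro ℓ a x
    unfold classDeficit dcl
    rw [e1, e2]
  have f0 : Tendsto (proportion (PrimitiveRoot n)) atTop (𝓝 (artin n')) ↔
      Tendsto (d00 n n') atTop (𝓝 0) := by
    constructor
    · intro h
      have h1 := (tendsto_const_nhds (x := artin n')).sub h
      rw [sub_self] at h1
      exact h1.congr fun x => e0 x
    · intro h
      have h1 := (tendsto_const_nhds (x := artin n')).sub h
      rw [sub_zero] at h1
      refine h1.congr fun x => ?_
      rw [← e0]
      unfold deficit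
      ring
  have f1 : ∀ ℓ a : ℕ, Tendsto (proportion fun p => p ≡ a [MOD ℓ] ∧ PrimitiveRoot n p) atTop
      (𝓝 (expected n' ℓ)) ↔ Tendsto (dcl n n' ℓ a) atTop (𝓝 0) := by
    intro ℓ a
    constructor
    · intro h
      have h1 := (tendsto_const_nhds (x := expected n' ℓ)).sub h
      rw [sub_self] at h1
      refine h1.congr fun x => ?_
      rw [e1, e2]
      rfl
    · intro h
      have h1 := (tendsto_const_nhds (x := expected n' ℓ)).sub h
      rw [sub_zero] at h1
      refine h1.congr fun x => ?_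
      rw [e1, e2]
      unfold dcl
      ring
  refine ⟨?_, ?_⟩
  · intro S a hS ε hε
    have h := bessel_class hg S a hS hε
    filter_upwards [h] with x hx
    simp only [e0, e3]
    exact hx
  · intro T a hT hsum
    rw [f0]
    constructor
    · intro h ℓ hℓ
      rw [f1]
      exact class_of_law hg (hT ℓ hℓ) h
    · intro h
      exact law_of_class hg T a hT hsum fun ℓ hℓ => (f1 ℓ (a ℓ)).1 (h ℓ hℓ)

end Pool.Agent.Results.MP_991e92_nt.OneClassPerModulus
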