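import Pool.Agent.H735A.Plain

/-! # Square root cancellation in Artin's density formula, for all progressions and intervals at once

Let `D ≠ 1` be a squarefree integer, `D ≡ 1 mod 4`; the integers `n` with squarefree part `D` are the
`D m²`. Put `G D p = (1 - (D / p)) φ(p - 1) / (p - 1)`, with the Jacobi symbol; this is (up to `O(1 / p)`) the
probability that `D m²` is a primitive root modulo `p` for a random `m`, and the average of `G D p` over all
primes is the density `δ(D)` of the problem, correction factor included.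

Let `0 < ε < 1 / 2` and `A, B, c > 0` be given. There is `κ > 0` such that for every such `D`, every `η > 0`, all
large `N` and every choice of finite families `S x` of sets of primes `≤ x`, `|S x| ≤ x ^ B`: for all but at most
`N / (log N) ^ A` of the integers `m ≤ N` the following holds for EVERY integer `x` in the range
`(log N) ^ c ≤ x ≤ N ^ κ` (`Good`):

* for every `P` in `S x` the number `cnt D P m` of the `p ∈ P` modulo which `D m²` is a primitive root differs
  from `∑_{p ∈ P} G D p` by at most `x ^ ε √|P|`;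
* the same holds for the set `P = AP u v q b` of the primes `p ≡ b mod q` in the interval `(u, v]`, for ALL
  `u ≤ v ≤ x` and `b < q ≤ x`;
* the number of the primes `p ≤ x` modulo which `D m²` is a primitive root differs from `δ(D) π(x)` by at most
  `η π(x)`.

Proof: the functions `m ↦ 1(D m² primitive root mod p) - ν_p / p` have mean zero modulo `p`, so the moments of
order `2 k` of the sum over `P` are those of independent variables as long as `x ^ (3 k) ≤ N`; `k` is taken large
in terms of `ε, A, B, c`.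
-/

set_option autoImplicit false

namespace Pool.Agent.Results.MP_991e92_nt.SquareRootCancellation

open Finset Pool.Agent.H735A
open Pool.Agent.H730R2.AA (dens)

theorem result (ε A B c : ℝ) (hε : 0 < ε) (hε2 : ε < 1 / 2) (hA : 0 ≤ A) (hc : 0 < c) :
    ∃ κ : ℝ, 0 < κ ∧ ∀ D : ℤ, Squarefree D → D % 4 = 1 → D ≠ 1 → ∀ η : ℝ, 0 < η →
      ∃ N0 : ℕ, ∀ N : ℕ, N0 ≤ N → ∀ S : ℕ → Finset (Finset ℕ),
        (∀ x : ℕ, 2 ≤ x → (#(S x) : ℝ) ≤ (x : ℝ) ^ B) →
        (∀ x, ∀ P ∈ S x, ∀ p ∈ P, p.Prime ∧ p ≤ x) →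
        ∃ E : Finset ℕ, (#E : ℝ) ≤ N / (Real.log N) ^ A ∧
          ∀ m : ℕ, 1 ≤ m → m ≤ N → m ∉ E →
            ∀ x : ℕ, (Real.log N) ^ c ≤ x → (x : ℝ) ≤ (N : ℝ) ^ κ →
              (∀ P ∈ S x, |cnt D P m - ∑ p ∈ P, G D p| ≤ (x : ℝ) ^ ε * √(#P : ℝ)) ∧
              (∀ u v q b : ℕ, u ≤ v → v ≤ x → b < q → q ≤ x →
                |cnt D (AP u v q b) m - ∑ p ∈ AP u v q b, G D p| ≤
                  (x : ℝ) ^ ε * √(#(AP u v q b) : ℝ)) ∧
              |cnt D (PrU x) m - dens D * (Nat.primeCounting x : ℝ)| ≤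
                η * (Nat.primeCounting x : ℝ) := by
  classical
  obtain ⟨κ, hκ, h⟩ := plain ε A B c hε hε2 hA hc
  refine ⟨κ, hκ, fun D h1 h2 h3 η hη => ?_⟩
  obtain ⟨N0, hN0⟩ := h D h1 h2 h3 η hη
  refine ⟨N0, fun N hN S hS hSP => ⟨_, hN0 N hN S hS hSP, fun m hm1 hm2 hm3 x hx1 hx2 => ?_⟩⟩
  by_contra hcon
  apply hm3
  rw [mem_filter, mem_Icc]
  exact ⟨⟨hm1, hm2⟩, fun hall => hcon (hall x hx1 hx2)⟩

end Pool.Agent.Results.MP_991e92_nt.SquareRootCancellation
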