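import Mathlib
import Pool.Agent.H249_WA.Inst

set_option autoImplicit false

/-! # Artin's density with correction factor relative to arbitrary weights on the primes, and simultaneously for
almost all vectors of integers

Let `D_1, ..., D_k` be nonzero integers and `j_i ≥ 0`; the integers `D_i m ^ (2 ^ j_i)` with `j_i ≥ 1` have the squarefree
part of `D_i`. Put `g_i(p) = φ(p - 1) / (p - 1)` if `j_i = 0` and `g_i(p) = (1 - (D_i / p)) φ(p - 1) / (p - 1)` if
`j_i ≥ 1`.
For `1 / 2 < θ < 1`, `C > 1` with `θ (1 - θ) < C (2 θ - 1)` there is `c > 0` such that for every `ε > 0`, all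
large `N` and EVERY function `w` from the primes to `[0, 1]` (for instance the indicator function of an arbitrary
set of primes), all but at most `k N ^ (k - 1 + θ)` of the vectors `(m_1, ..., m_k)` with entries `≤ N` have the
property: for every `x` with `N ^ C ≤ x ≤ exp ((log N) ^ (1 + c))` the sum of `w p` over the primes `p ≤ x` modulo
which ALL the `D_i m_i ^ (2 ^ j_i)` are primitive roots differs by at most `ε π(x)` from
`∑_{p ≤ x} w p ∏ g_i(p)`. -/

namespace Pool.Agent.Results.MP_991e92_nt.WeightsAndTuples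

open Finset

open Classical in
/-- The sum of the weights `w p` of the primes `p ≤ x` modulo which all the integers `D i * (m i) ^ (2 ^ j i)` are
primitive roots. -/
noncomputable def weight {k : ℕ} (D : Fin k → ℤ) (j : Fin k → ℕ) (w : ℕ → ℝ) (m : Fin k → ℕ)
    (x : ℕ) : ℝ :=
  ∑ p ∈ (range (x + 1)).filter (fun p : ℕ => p.Prime ∧
    ∀ i, orderOf ((D i * (m i : ℤ) ^ (2 ^ j i) : ℤ) : ZMod p) = p - 1), w p

open Classical in
/-- The sum of `w p ∏ g_i(p)` over the primes `p ≤ x` that divide no `D i`, where `g_i(p) = φ(p - 1) / (p - 1)` if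
`j i = 0` and `g_i(p) = (1 - (D i / p)) φ(p - 1) / (p - 1)` if `j i ≥ 1`. -/
noncomputable def expected {k : ℕ} (D : Fin k → ℤ) (j : Fin k → ℕ) (w : ℕ → ℝ) (x : ℕ) : ℝ :=
  ∑ p ∈ (range (x + 1)).filter (fun p : ℕ => p.Prime ∧ ∀ i, ¬ (p : ℤ) ∣ D i),
    w p * ∏ i, ((Nat.totient (p - 1) : ℝ) / ((p - 1 : ℕ) : ℝ) *
      (if j i = 0 then 1 else 1 - (jacobiSym (D i) p : ℝ)))

open Classical in
theorem result (θ C : ℝ) (hθ : 1 / 2 < θ) (hθ1 : θ < 1) (hC : 1 < C)
    (hCθ : θ * (1 - θ) < C * (2 * θ - 1)) :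
    ∃ c : ℝ, 0 < c ∧ ∀ (k : ℕ) (D : Fin k → ℤ) (j : Fin k → ℕ),
      (∀ i, D i ≠ 0) → ∀ ε : ℝ, 0 < ε → ∃ N₀ : ℕ, ∀ N : ℕ, N₀ ≤ N →
        ∀ w : ℕ → ℝ, (∀ p, 0 ≤ w p ∧ w p ≤ 1) →
          (((Fintype.piFinset fun _ : Fin k => Icc 1 N).filter (fun m : Fin k → ℕ =>
            ∃ x : ℕ, (N : ℝ) ^ C ≤ x ∧ (x : ℝ) ≤ Real.exp ((Real.log N) ^ (1 + c)) ∧
              ε * (Nat.primeCounting x : ℝ) < |weight D j w m x - expected D j w x|)).card : ℝ) ≤
            k * (N : ℝ) ^ ((k : ℝ) - 1 + θ) := by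
  obtain ⟨c, hc, h⟩ := Pool.Agent.H249_WA.tuples θ C hθ hθ1 hC hCθ
  refine ⟨c, hc, fun k D j hD ε hε => ?_⟩
  obtain ⟨N₀, hN₀⟩ := h k (fun i => Pool.Agent.H249_WA.dE (D i) (hD i) (j i)) ε hε
  refine ⟨N₀, fun N hN w hw => ?_⟩
  refine le_trans (le_of_eq ?_) (hN₀ N hN w (fun p => (hw p).1) (fun p => (hw p).2))
  unfold Pool.Agent.H249_WA.badT
  have h1 : ∀ (m : Fin k → ℕ) (x : ℕ), weight D j w m x = Pool.Agent.H249_WA.cntT
      (fun i => Pool.Agent.H249_WA.dE (D i) (hD i) (j i)) w m x := by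
    intro m x
    unfold weight Pool.Agent.H249_WA.cntT Pool.Agent.H386R2.Artin.PP
    rw [Finset.filter_filter]
    refine Finset.sum_congr (Finset.filter_congr fun p _ => ?_) fun _ _ => rfl
    refine and_congr_right fun _ => forall_congr' fun i => ?_
    rw [Pool.Agent.H249_WA.dE_Q]
    push_cast
    rfl
  have h2 : ∀ x : ℕ, expected D j w x = Pool.Agent.H249_WA.mainT
      (fun i => Pool.Agent.H249_WA.dE (D i) (hD i) (j i)) w x := by
    intro x
    unfold expected Pool.Agent.H249_WA.mainT Pool.Agent.H386R2.Artin.PP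
    rw [← Finset.filter_filter, Finset.sum_filter]
    refine Finset.sum_congr rfl fun p _ => ?_
    by_cases hp : ∀ i, ¬ (p : ℤ) ∣ D i
    · rw [if_pos hp]
      congr 1
      refine Finset.prod_congr rfl fun i _ => ?_
      rw [Pool.Agent.H249_WA.dE_G, if_neg (hp i)]
      rfl
    · rw [if_neg hp]
      push Not at hp
      obtain ⟨i, hi⟩ := hp
      have h3 : ∏ i, (Pool.Agent.H249_WA.dE (D i) (hD i) (j i)).G p = 0 := by
        refine Finset.prod_eq_zero (Finset.mem_univ i) ?_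
        rw [Pool.Agent.H249_WA.dE_G, if_pos hi]
      rw [h3, mul_zero]
  simp only [h1, h2]

end Pool.Agent.Results.MP_991e92_nt.WeightsAndTuples
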